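import Pool.Agent.MWGR.StmtsC

/-!
# Squad MWGR, row JMB (helper39): a non-first letter is moved to the left over multiple letters
-/

set_option autoImplicit false

namespace Pool.Agent.MWGR.H39

open Pool.Agent.Helper14_MV Pool.Agent.Helper2_MV Pool.Agent.MVO Pool.Agent.MWL Pool.Agent.MWS
  Pool.Agent.MWH
open Pool.Agent.MWGR

theorem rep_flatMap (g : ℕ → List ℕ) (m c x : ℕ) (h : g c = [x]) :
    (List.replicate m c).flatMap g = List.replicate m x := by
  induction m with
  | zero => rfl
  | succ m ih => rw [List.replicate_succ, List.flatMap_cons, ih, h, List.replicate_succ]; rfl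

/-- letters which occur before commute: `c b^k ~ b^k c` -/
theorem swap_rep {n : ℕ} {η : FIC} (hgap : MWGP.GapStmt) (hB : BG n (RR η)) (b c : ℕ) :
    ∀ (k : ℕ) (p t : List ℕ), b ∈ p → c ∈ p →
      RR η (p ++ c :: (List.replicate k b ++ t)) (p ++ (List.replicate k b ++ c :: t)) := by
  intro k
  induction k with
  | zero => intro p t _ _; exact RR.refl _
  | succ k ih =>
    intro p t hb hc
    have h1 := (hgap n η hB.ga hB.rn p (List.replicate k b ++ t) c b hc).2 hb
    have h2 := ih (p ++ [b]) t (List.mem_append_left _ hb) (List.mem_append_left _ hc)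
    have e1 : p ++ c :: (List.replicate (k + 1) b ++ t) =
        p ++ c :: b :: (List.replicate k b ++ t) := by
      rw [List.replicate_succ, List.cons_append]
    have e2 : p ++ (List.replicate (k + 1) b ++ c :: t) =
        p ++ [b] ++ (List.replicate k b ++ c :: t) := by
      rw [List.replicate_succ]
      simp
    have e3 : p ++ [b] ++ c :: (List.replicate k b ++ t) =
        p ++ b :: c :: (List.replicate k b ++ t) := by simp
    rw [e1, e2]
    rw [e3] at h2
    exact η.trans h1 h2

/-- one step -/
theorem step {n : ℕ} {η : FIC} (hgap : MWGP.GapStmt) (hB : BG n (RR η)) (hR : Rh n (RR η))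
    (b c : ℕ) (p r : List ℕ) (hb : b ∈ p) (hc : 2 ≤ (p ++ c :: b :: r).count c) :
    RR η (p ++ c :: b :: r) (p ++ (List.replicate n b ++ c :: b :: r)) := by
  have hn := hB.pos
  by_cases hcb : c = b
  · subst hcb
    have h1 := (hgap n η hB.ga hB.rn p (c :: r) c c hb).1
    have e1 : List.replicate (n + 1) c ++ c :: r = List.replicate n c ++ c :: c :: r := by
      rw [List.replicate_succ']
      simp
    rw [e1] at h1
    exact h1
  · -- `b ~ b^(n+1)` behind `c`
    have hG : ∀ p' : List ℕ, b ∈ p' →
        RR η (p' ++ c :: b :: r) (p' ++ c :: (List.replicate (n + 1) b ++ r)) := by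
      intro p' hb'
      have h1 := (hgap n η hB.ga hB.rn (p' ++ [c]) r b b (List.mem_append_left _ hb')).1
      have e1 : p' ++ [c] ++ b :: r = p' ++ c :: b :: r := by simp
      have e2 : p' ++ [c] ++ (List.replicate (n + 1) b ++ r) =
          p' ++ c :: (List.replicate (n + 1) b ++ r) := by simp
      rw [e1, e2] at h1
      exact h1
    have h1 := hG p hb
    by_cases hcp : c ∈ p
    · have h2 := swap_rep hgap hB b c n p (b :: r) hb hcp
      have e1 : p ++ c :: (List.replicate n b ++ b :: r) =
          p ++ c :: (List.replicate (n + 1) b ++ r) := by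
        rw [List.replicate_succ']
        simp
      rw [e1] at h2
      exact η.trans h1 h2
    · have hcr : c ∈ r := by
        have h3 : (p ++ c :: b :: r).count c = p.count c + (1 + r.count c) := by
          rw [List.count_append, List.count_cons_self, List.count_cons_of_ne (Ne.symm hcb)]
          omega
        have h4 : p.count c = 0 := List.count_eq_zero.2 hcp
        exact List.count_pos_iff.1 (by omega)
      obtain ⟨s1, s2, rfl⟩ := List.append_of_mem hcr
      obtain ⟨p1, p2, rfl⟩ := List.append_of_mem hb
      obtain ⟨m, rfl⟩ : ∃ m, n = m + 1 := ⟨n - 1, by omega⟩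
      have h0 : RR η [0, 2, 1, 0, 0, 3, 1]
          ([0, 2] ++ (List.replicate (m + 1) 0 ++ [1, 0, 0, 3, 1])) := hR
      have h2 := h0.sub (fun i => if i = 0 then [b] else if i = 1 then [c] else
        if i = 2 then p2 else List.replicate m b ++ s1)
      have e1 : ([0, 2, 1, 0, 0, 3, 1] : List ℕ).flatMap (fun i => if i = 0 then [b] else
          if i = 1 then [c] else if i = 2 then p2 else List.replicate m b ++ s1) =
          b :: (p2 ++ c :: b :: b :: (List.replicate m b ++ (s1 ++ [c]))) := by simp
      have e2 : ([0, 2] ++ (List.replicate (m + 1) 0 ++ [1, 0, 0, 3, 1])).flatMap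
          (fun i => if i = 0 then [b] else
          if i = 1 then [c] else if i = 2 then p2 else List.replicate m b ++ s1) =
          b :: (p2 ++ (List.replicate (m + 1) b ++
            c :: b :: b :: (List.replicate m b ++ (s1 ++ [c])))) := by
        rw [List.flatMap_append, List.flatMap_append, rep_flatMap _ _ 0 b (by simp)]
        simp
      rw [e1, e2] at h2
      have h3 := ((RR.refl p1).append h2).append (RR.refl (β := η) s2)
      have e3 : p1 ++ b :: (p2 ++ c :: b :: b :: (List.replicate m b ++ (s1 ++ [c]))) ++ s2 =
          p1 ++ b :: p2 ++ c :: (List.replicate (m + 1 + 1) b ++ (s1 ++ c :: s2)) := by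
        simp [List.replicate_succ]
      have e4 : p1 ++ b :: (p2 ++ (List.replicate (m + 1) b ++
            c :: b :: b :: (List.replicate m b ++ (s1 ++ [c])))) ++ s2 =
          p1 ++ b :: p2 ++ List.replicate (m + 1) b ++
            c :: (List.replicate (m + 1 + 1) b ++ (s1 ++ c :: s2)) := by
        simp [List.replicate_succ]
      rw [e3, e4] at h3
      have h4 := hG (p1 ++ b :: p2 ++ List.replicate (m + 1) b) (List.mem_append_left _ hb)
      have h5 := η.trans h1 (η.trans h3 (RR.symm h4))
      have e5 : p1 ++ b :: p2 ++ List.replicate (m + 1) b ++ c :: b :: (s1 ++ c :: s2) =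
          p1 ++ b :: p2 ++ (List.replicate (m + 1) b ++ c :: b :: (s1 ++ c :: s2)) := by
        simp only [List.append_assoc]
      have h6 : RR η (p1 ++ b :: p2 ++ c :: b :: (s1 ++ c :: s2))
          (p1 ++ b :: p2 ++ List.replicate (m + 1) b ++ c :: b :: (s1 ++ c :: s2)) := h5
      rw [e5] at h6
      exact h6

/-- **JMB** -/
theorem jmb (hgap : MWGP.GapStmt) : JmbStmt := by
  intro n η hB hR p w r b hb
  have hn := hB.pos
  induction w using List.reverseRecOn generalizing r with
  | nil =>
    intro _
    have h1 := (hgap n η hB.ga hB.rn p r b b hb).1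
    have e1 : List.replicate (n + 1) b ++ r = List.replicate n b ++ ([] ++ b :: r) := by
      rw [List.replicate_succ']
      simp
    rw [e1] at h1
    exact h1
  | append_singleton w c ih =>
    intro hM
    obtain ⟨m, hm⟩ : ∃ m, n = m + 1 := ⟨n - 1, by omega⟩
    have e0 : p ++ (w ++ [c] ++ b :: r) = p ++ w ++ c :: b :: r := by simp
    have hc : 2 ≤ (p ++ w ++ c :: b :: r).count c := by
      rw [← e0]
      exact hM c (by simp)
    have h1 := step hgap hB hR b c (p ++ w) r (List.mem_append_left _ hb) hc
    have hM2 : MVO.Sys.Mul w (p ++ (w ++ b :: (List.replicate m b ++ c :: b :: r))) := by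
      intro z hz
      have h2 : 2 ≤ (p ++ (w ++ [c] ++ b :: r)).count z := hM z (List.mem_append_left _ hz)
      rw [e0] at h2
      simp only [List.count_append, List.count_cons] at h2 ⊢
      omega
    have h2 := ih (List.replicate m b ++ c :: b :: r) hM2
    have hc2 : 2 ≤ (p ++ List.replicate n b ++ w ++ c :: b :: r).count c := by
      simp only [List.count_append] at hc ⊢
      omega
    have h3 := step hgap hB hR b c (p ++ List.replicate n b ++ w) r
      (List.mem_append_left _ (List.mem_append_left _ hb)) hc2
    have e1 : p ++ w ++ (List.replicate n b ++ c :: b :: r) =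
        p ++ (w ++ b :: (List.replicate m b ++ c :: b :: r)) := by
      rw [hm, List.replicate_succ]
      simp
    have e2 : p ++ (List.replicate n b ++ (w ++ b :: (List.replicate m b ++ c :: b :: r))) =
        p ++ List.replicate n b ++ w ++ (List.replicate n b ++ c :: b :: r) := by
      have e3 : b :: (List.replicate m b ++ c :: b :: r) =
          List.replicate n b ++ c :: b :: r := by
        rw [hm, List.replicate_succ]
        simp
      rw [e3]
      simp only [List.append_assoc]
    rw [e1] at h1
    rw [e2] at h2
    have h4 := η.trans h1 (η.trans h2 (RR.symm h3))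
    have e4 : p ++ List.replicate n b ++ w ++ c :: b :: r =
        p ++ (List.replicate n b ++ (w ++ [c] ++ b :: r)) := by simp
    have h5 : RR η (p ++ w ++ c :: b :: r)
        (p ++ List.replicate n b ++ w ++ c :: b :: r) := h4
    rw [e4, ← e0] at h5
    exact h5

end Pool.Agent.MWGR.H39
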