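import Pool.Agent.MWGR.StmtsF

/-!
# Squad MWGR, row STB (helper39): the profiles of related one letter words
-/

set_option autoImplicit false

namespace Pool.Agent.MWGR.H39

open Pool.Agent.Helper14_MV Pool.Agent.Helper2_MV Pool.Agent.MVO Pool.Agent.MWL Pool.Agent.MWS
  Pool.Agent.MWH
open Pool.Agent.MWGR

/-- something is behind `i` -/
theorem behind {k : ℕ} {a : ℕ → ℕ} (hd : 2 ≤ deg k a) {i p : ℕ} (hi : i ≤ k) (hp : p < i)
    (h1 : a p = 1) (h0 : ∀ l < i, l ≠ p → a l = 0) (hi0 : a i = 0) :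
    ∃ q, i < q ∧ q ≤ k ∧ a q ≠ 0 := by
  by_contra hcon
  have hz : ∀ j ∈ Finset.range (k + 1), j ≠ p → a j = 0 := by
    intro j hj hjp
    have hj' : j ≤ k := by
      have := Finset.mem_range.1 hj
      omega
    rcases lt_trichotomy j i with h | h | h
    · exact h0 j h hjp
    · rw [h]; exact hi0
    · by_contra hne
      exact hcon ⟨j, h, hj', hne⟩
  have h2 : deg k a = a p := by
    unfold deg
    exact Finset.sum_eq_single p hz (fun h => absurd (Finset.mem_range.2 (by omega)) h)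
  omega

/-- what is known for one direction -/
structure Hf (n : ℕ) (R : FC) (k : ℕ) (a a' : ℕ → ℕ) : Prop where
  dg : 2 ≤ deg k a
  p3 : ∀ i ≤ k, a i = 0 → (∀ p < i, a p = 0) → a' i = 0
  p4 : ∀ i ≤ k, a i = 1 → (∀ p < i, a p = 0) → a' i = 1
  p2 : ∀ i ≤ k, a i = 0 → (∀ q, i < q → q ≤ k → a q = 0) → a' i = 0
  p5 : ∀ i ≤ k, a i = 0 → (∃ p < i, a p = 1 ∧ ∀ l < i, l ≠ p → a l = 0) → a' i = 0
  p1 : ¬ Has n R Bit.F → ∀ i ≤ k, a i = 0 → a' i = 0

theorem hf (key : MWL.KeyStmt) (arr : MWL.ArrStmt) (zab : ZabStmt) {n : ℕ} {R : FC}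
    (hL : LR n R) (hN : ND R) (hD : ¬ Has n R (Bit.D 0)) (hE : ¬ Has n R Bit.E) {k : ℕ}
    {a a' : ℕ → ℕ} (hd : 2 ≤ deg k a) (hR : R.R k a a') : Hf n R k a a' := by
  have hG : ¬ Has n R Bit.G := fun h => hD ((arr n R hL).2.2.1 h)
  have hK : ∀ i ≤ k, ¬ Ab n R k a i → a i = a' i := key n R hL hN k a a' hR
  have hZ := fun (i : ℕ) (hi : i ≤ k) (hA : Ab n R k a i) => zab n R hL k a i hi hd hA
  have p3 : ∀ i ≤ k, a i = 0 → (∀ p < i, a p = 0) → a' i = 0 := by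
    intro i hi h0 hb
    rw [← hK i hi (fun hA => hG ((hZ i hi hA).2.2.1 h0 hb))]
    exact h0
  have p2 : ∀ i ≤ k, a i = 0 → (∀ q, i < q → q ≤ k → a q = 0) → a' i = 0 := by
    intro i hi h0 hb
    rw [← hK i hi (fun hA => hE ((hZ i hi hA).2.1 h0 hb))]
    exact h0
  refine ⟨hd, p3, ?_, p2, ?_, ?_⟩
  · intro i hi h1 hb
    rw [← hK i hi (fun hA => hD ((hZ i hi hA).2.2.2.1 h1 hb))]
    exact h1
  · intro i hi h0 hp
    obtain ⟨p, hpi, hp1, hpl⟩ := hp
    have hq := behind hd hi hpi hp1 hpl h0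
    rw [← hK i hi (fun hA => hD ((hZ i hi hA).2.2.2.2 h0 ⟨p, hpi, hp1, hpl⟩ hq))]
    exact h0
  · intro hF i hi h0
    by_cases hb : ∀ p < i, a p = 0
    · exact p3 i hi h0 hb
    · by_cases hc : ∀ q, i < q → q ≤ k → a q = 0
      · exact p2 i hi h0 hc
      · have hb' : ∃ p < i, a p ≠ 0 := by
          by_contra hcon
          exact hb (fun p hp => by
            by_contra hne
            exact hcon ⟨p, hp, hne⟩)
        have hc' : ∃ q, i < q ∧ q ≤ k ∧ a q ≠ 0 := by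
          by_contra hcon
          exact hc (fun q hq hqk => by
            by_contra hne
            exact hcon ⟨q, hq, hqk, hne⟩)
        rw [← hK i hi (fun hA => hF ((hZ i hi hA).1 h0 hb' hc'))]
        exact h0

/-- **STB** -/
theorem stb (_trn : MWL.TrnStmt) (key : MWL.KeyStmt) (arr : MWL.ArrStmt) (zab : ZabStmt) :
    StbStmt := by
  intro n R hL hN hD hE k a a' hd hd' hR
  have H := hf key arr zab hL hN hD hE hd hR
  have H' := hf key arr zab hL hN hD hE hd' (R.symm hR)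
  -- first clause
  have c1 : ∀ i ≤ k, (∀ p < i, a p = 0) →
      (a i = 1 ↔ a' i = 1) ∧ (a i = 0 ↔ a' i = 0) ∧ ∀ p < i, a' p = 0 := by
    intro i hi hb
    have hb' : ∀ p < i, a' p = 0 := fun p hp =>
      H.p3 p (by omega) (hb p hp) (fun p' hp' => hb p' (by omega))
    exact ⟨⟨fun h => H.p4 i hi h hb, fun h => H'.p4 i hi h hb'⟩,
      ⟨fun h => H.p3 i hi h hb, fun h => H'.p3 i hi h hb'⟩, hb'⟩
  intro i hi
  refine ⟨c1 i hi, ?_, ?_, ?_⟩
  · intro hq
    have hq' : ∀ q, i < q → q ≤ k → a' q = 0 := fun q h1 h2 =>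
      H.p2 q h2 (hq q h1 h2) (fun q' h1' h2' => hq q' (by omega) h2')
    exact ⟨⟨fun h => H.p2 i hi h hq, fun h => H'.p2 i hi h hq'⟩, hq'⟩
  · rintro ⟨p, hp, hp1, hpl⟩
    have hc := c1 p (by omega) (fun p' hp' => hpl p' (by omega) (by omega))
    have hp1' : a' p = 1 := hc.1.1 hp1
    have hpl' : ∀ l < i, l ≠ p → a' l = 0 := by
      intro l hl hne
      rcases lt_or_gt_of_ne hne with h | h
      · exact hc.2.2 l h
      · exact H.p5 l (by omega) (hpl l hl hne)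
          ⟨p, h, hp1, fun l' hl' hne' => hpl l' (by omega) hne'⟩
    exact ⟨fun h => H.p5 i hi h ⟨p, hp, hp1, hpl⟩, fun h => H'.p5 i hi h ⟨p, hp, hp1', hpl'⟩⟩
  · intro hF
    exact ⟨fun h => H.p1 hF i hi h, fun h => H'.p1 hF i hi h⟩

end Pool.Agent.MWGR.H39
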